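import Mathlib
import Pool.Agent.H3.HK.Defs

set_option autoImplicit false
set_option linter.dupNamespace false
set_option linter.unusedSectionVars false

/-!
# Hecke-Kiselman monoids of oriented graphs are linear over `ℤ`: definitions

`e_i` is the update `v_i := f_i(v_j : i → j)`.  For a word `h` (the head is applied last) and a set
`S` of vertices, `tau T h S` is the word of all events seen by the coordinates in `S`.
-/

namespace Pool.Agent.H68.HKO

open Pool.Agent.H3.HK
open scoped Classical

variable {V : Type} [Fintype V]

/-- out-neighbours -/
noncomputable def Out (T : V → V → Prop) (i : V) : Finset V := Finset.univ.filter (fun j => T i j)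

/-- the set of coordinates read by the set `S` before the event `i` -/
noncomputable def ph (T : V → V → Prop) (i : V) (S : Finset V) : Finset V :=
  if i ∈ S then Out T i ∪ S.erase i else S

/-- the effect of an event on the bits (`true`: active) -/
noncomputable def st (T : V → V → Prop) (i : V) (c : V → Bool) : V → Bool :=
  if c i then fun k => if k = i then false else if T k i then true else c k else c

/-- the bits after a word -/
noncomputable def bits (T : V → V → Prop) : List V → V → Bool
  | [] => fun _ => true
  | k :: h => st T k (bits T h)

/-- the events seen by `S` -/
noncomputable def tau (T : V → V → Prop) : List V → Finset V → List V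
  | [] => fun _ => []
  | k :: h => fun S => if bits T h k then (if k ∈ S then k :: tau T h (ph T k S) else tau T h S)
      else tau T h S

/-- the matrix of a letter in the block of the pair `p` -/
noncomputable def MM (T : V → V → Prop) (i : V) (p : V × V) : Matrix (Fin 2) (Fin 2) ℤ :=
  if i = p.1 then !![1, 1; 0, 1] else if i = p.2 ∧ T p.1 p.2 then !![1, 0; 1, 1] else 1

/-- the matrix of a word in the block of the pair `p` -/
noncomputable def Mp (T : V → V → Prop) (l : List V) (p : V × V) : Matrix (Fin 2) (Fin 2) ℤ :=
  (l.map (fun i => MM T i p)).prod

end Pool.Agent.H68.HKO
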