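import Pool.Agent.H68.HKO.Defs

set_option autoImplicit false
set_option linter.dupNamespace false
set_option linter.unusedSectionVars false

/-!
# Fr: the matrices of a word determine its letter counts and its projections to joined pairs

`p = (i, i)`: `Mp = !![1, count; 0, 1]`.  `p = (i, j)`, `T i j`, `i ≠ j`: the matrices
`!![1, 1; 0, 1]`, `!![1, 0; 1, 1]` generate a free monoid (nonnegative entries, compare the two rows /
columns), the other letters act as `1`.
-/

namespace Pool.Agent.H68.HKO

open Pool.Agent.H3.HK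
open scoped Classical

variable {V : Type} [Fintype V]

theorem fr_cons (T : V → V → Prop) (k : V) (l : List V) (p : V × V) :
    Mp T (k :: l) p = MM T k p * Mp T l p := by
  simp [Mp]

theorem fr_nil (T : V → V → Prop) (p : V × V) : Mp T [] p = 1 := by
  simp [Mp]

/-- the diagonal block counts letters -/
theorem fr_count (T : V → V → Prop) (i : V) (l : List V) :
    Mp T l (i, i) = !![1, (l.count i : ℤ); 0, 1] := by
  induction l with
  | nil => simp [fr_nil, Matrix.one_fin_two]
  | cons k l ih =>
    rw [fr_cons, ih]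
    by_cases hk : k = i
    · subst hk
      simp only [MM, if_true, Matrix.mul_fin_two, List.count_cons_self]
      push_cast
      ext a b
      fin_cases a <;> fin_cases b <;> simp
    · have : MM T k (i, i) = 1 := by simp [MM, hk]
      rw [this, one_mul, List.count_cons_of_ne (by simpa using hk)]

/-- the letters outside `{i, j}` act as the identity -/
theorem fr_filter (T : V → V → Prop) (i j : V) (l : List V) :
    Mp T (l.filter (fun k => k = i ∨ k = j)) (i, j) = Mp T l (i, j) := by
  induction l with
  | nil => simp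
  | cons k l ih =>
    by_cases hk : k = i ∨ k = j
    · rw [List.filter_cons_of_pos (by simpa using hk), fr_cons, fr_cons, ih]
    · rw [List.filter_cons_of_neg (by simpa using hk), fr_cons, ih]
      have : MM T k (i, j) = 1 := by
        push Not at hk
        simp [MM, hk.1, hk.2]
      rw [this, one_mul]

theorem fr_MMi (T : V → V → Prop) (i j : V) : MM T i (i, j) = !![1, 1; 0, 1] := by
  simp [MM]

theorem fr_MMj (T : V → V → Prop) {i j : V} (hij : i ≠ j) (h : T i j) :
    MM T j (i, j) = !![1, 0; 1, 1] := by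
  simp [MM, hij.symm, h]

/-- row sums are positive -/
theorem fr_pos (T : V → V → Prop) {i j : V} (hij : i ≠ j) (h : T i j) (l : List V)
    (hl : ∀ k ∈ l, k = i ∨ k = j) :
    0 < Mp T l (i, j) 0 0 + Mp T l (i, j) 0 1 ∧ 0 < Mp T l (i, j) 1 0 + Mp T l (i, j) 1 1 := by
  induction l with
  | nil => simp [fr_nil]
  | cons k l ih =>
    have ih' := ih (fun x hx => hl x (List.mem_cons_of_mem _ hx))
    rcases hl k (List.mem_cons_self) with rfl | rfl
    · rw [fr_cons, fr_MMi]
      simp only [Matrix.mul_apply, Fin.sum_univ_two, Matrix.of_apply, Matrix.cons_val', Matrix.cons_val_zero,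
        Matrix.cons_val_one, Matrix.cons_val_fin_one]
      constructor <;> linarith [ih'.1, ih'.2]
    · rw [fr_cons, fr_MMj T hij h]
      simp only [Matrix.mul_apply, Fin.sum_univ_two, Matrix.of_apply, Matrix.cons_val', Matrix.cons_val_zero,
        Matrix.cons_val_one, Matrix.cons_val_fin_one]
      constructor <;> linarith [ih'.1, ih'.2]

/-- entries after the letter `i` -/
theorem fr_ent_i (T : V → V → Prop) (i j : V) (l : List V) :
    Mp T (i :: l) (i, j) 0 0 = Mp T l (i, j) 0 0 + Mp T l (i, j) 1 0 ∧
    Mp T (i :: l) (i, j) 0 1 = Mp T l (i, j) 0 1 + Mp T l (i, j) 1 1 ∧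
    Mp T (i :: l) (i, j) 1 0 = Mp T l (i, j) 1 0 ∧
    Mp T (i :: l) (i, j) 1 1 = Mp T l (i, j) 1 1 := by
  rw [fr_cons, fr_MMi]
  simp [Matrix.mul_apply, Fin.sum_univ_two]

/-- entries after the letter `j` -/
theorem fr_ent_j (T : V → V → Prop) {i j : V} (hij : i ≠ j) (h : T i j) (l : List V) :
    Mp T (j :: l) (i, j) 0 0 = Mp T l (i, j) 0 0 ∧
    Mp T (j :: l) (i, j) 0 1 = Mp T l (i, j) 0 1 ∧
    Mp T (j :: l) (i, j) 1 0 = Mp T l (i, j) 0 0 + Mp T l (i, j) 1 0 ∧
    Mp T (j :: l) (i, j) 1 1 = Mp T l (i, j) 0 1 + Mp T l (i, j) 1 1 := by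
  rw [fr_cons, fr_MMj T hij h]
  simp [Matrix.mul_apply, Fin.sum_univ_two]

/-- the two matrices generate a free monoid -/
theorem fr_free (T : V → V → Prop) {i j : V} (hij : i ≠ j) (h : T i j) (l l' : List V)
    (hl : ∀ k ∈ l, k = i ∨ k = j) (hl' : ∀ k ∈ l', k = i ∨ k = j)
    (he : Mp T l (i, j) = Mp T l' (i, j)) : l = l' := by
  induction l generalizing l' with
  | nil =>
    cases l' with
    | nil => rfl
    | cons k' f' =>
      exfalso
      have hp := fr_pos T hij h f' (fun x hx => hl' x (List.mem_cons_of_mem _ hx))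
      have e := fun a b => congrFun (congrFun he a) b
      have e00 := e 0 0; have e01 := e 0 1; have e10 := e 1 0; have e11 := e 1 1
      rw [fr_nil] at e00 e01 e10 e11
      simp only [Matrix.one_apply, if_true] at e00 e01 e10 e11
      norm_num at e01 e10
      rcases hl' k' (List.mem_cons_self) with rfl | rfl
      · obtain ⟨a1, a2, a3, a4⟩ := fr_ent_i T k' j f'
        rw [a1] at e00; rw [a2] at e01; rw [a3] at e10; rw [a4] at e11
        linarith [hp.1, hp.2]
      · obtain ⟨a1, a2, a3, a4⟩ := fr_ent_j T hij h f'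
        rw [a1] at e00; rw [a2] at e01; rw [a3] at e10; rw [a4] at e11
        linarith [hp.1, hp.2]
  | cons k f ih =>
    have hpf := fr_pos T hij h f (fun x hx => hl x (List.mem_cons_of_mem _ hx))
    have e := fun a b => congrFun (congrFun he a) b
    have e00 := e 0 0; have e01 := e 0 1; have e10 := e 1 0; have e11 := e 1 1
    cases l' with
    | nil =>
      exfalso
      rw [fr_nil] at e00 e01 e10 e11
      simp only [Matrix.one_apply, if_true] at e00 e01 e10 e11
      norm_num at e01 e10
      rcases hl k (List.mem_cons_self) with rfl | rfl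
      · obtain ⟨a1, a2, a3, a4⟩ := fr_ent_i T k j f
        rw [a1] at e00; rw [a2] at e01; rw [a3] at e10; rw [a4] at e11
        linarith [hpf.1, hpf.2]
      · obtain ⟨a1, a2, a3, a4⟩ := fr_ent_j T hij h f
        rw [a1] at e00; rw [a2] at e01; rw [a3] at e10; rw [a4] at e11
        linarith [hpf.1, hpf.2]
    | cons k' f' =>
      have hpf' := fr_pos T hij h f' (fun x hx => hl' x (List.mem_cons_of_mem _ hx))
      have key : Mp T f (i, j) = Mp T f' (i, j) → f = f' :=
        ih f' (fun x hx => hl x (List.mem_cons_of_mem _ hx))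
          (fun x hx => hl' x (List.mem_cons_of_mem _ hx))
      rcases hl k (List.mem_cons_self) with rfl | rfl <;>
        rcases hl' k' (List.mem_cons_self) with hk' | hk'
      · subst hk'
        obtain ⟨a1, a2, a3, a4⟩ := fr_ent_i T k' j f
        obtain ⟨b1, b2, b3, b4⟩ := fr_ent_i T k' j f'
        rw [a1, b1] at e00; rw [a2, b2] at e01; rw [a3, b3] at e10; rw [a4, b4] at e11
        rw [key]
        ext a b
        fin_cases a <;> fin_cases b <;> simp <;> linarith
      · exfalso
        subst hk'
        obtain ⟨a1, a2, a3, a4⟩ := fr_ent_i T k k' f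
        obtain ⟨b1, b2, b3, b4⟩ := fr_ent_j T hij h f'
        rw [a1, b1] at e00; rw [a2, b2] at e01; rw [a3, b3] at e10; rw [a4, b4] at e11
        linarith [hpf.1, hpf.2, hpf'.1, hpf'.2]
      · exfalso
        subst hk'
        obtain ⟨a1, a2, a3, a4⟩ := fr_ent_j T hij h f
        obtain ⟨b1, b2, b3, b4⟩ := fr_ent_i T k' k f'
        rw [a1, b1] at e00; rw [a2, b2] at e01; rw [a3, b3] at e10; rw [a4, b4] at e11
        linarith [hpf.1, hpf.2, hpf'.1, hpf'.2]
      · subst hk'
        obtain ⟨a1, a2, a3, a4⟩ := fr_ent_j T hij h f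
        obtain ⟨b1, b2, b3, b4⟩ := fr_ent_j T hij h f'
        rw [a1, b1] at e00; rw [a2, b2] at e01; rw [a3, b3] at e10; rw [a4, b4] at e11
        rw [key]
        ext a b
        fin_cases a <;> fin_cases b <;> simp <;> linarith

theorem Mp_inj (T : V → V → Prop) {l l' : List V} (h : ∀ p, Mp T l p = Mp T l' p) :
    (∀ i, l.count i = l'.count i) ∧ ∀ i j, i ≠ j → T i j →
      l.filter (fun k => k = i ∨ k = j) = l'.filter (fun k => k = i ∨ k = j) := by
  constructor
  · intro i
    have := h (i, i)
    rw [fr_count, fr_count] at this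
    have h2 := congrFun (congrFun this 0) 1
    simpa using h2
  · intro i j hij hT
    apply fr_free T hij hT
    · intro k hk
      simpa using (List.mem_filter.1 hk).2
    · intro k hk
      simpa using (List.mem_filter.1 hk).2
    · rw [fr_filter, fr_filter]
      exact h (i, j)

end Pool.Agent.H68.HKO
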