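import Pool.Agent.H68.HKO.Defs

set_option autoImplicit false
set_option linter.dupNamespace false
set_option linter.unusedSectionVars false

/-!
# Red: the word `tau T h univ` of the seen events gives the same element as `h`
-/

namespace Pool.Agent.H68.HKO

open Pool.Agent.H3.HK
open scoped Classical

variable {V : Type} [Fintype V] {T : V → V → Prop}

/-- an inactive letter does not change the element -/
theorem inactive (hT : ∀ i j, T i j → ¬ T j i) (h : List V) : ∀ j, bits T h j = false →
    gen T j * wd T h = wd T h := by
  induction h with
  | nil => intro j hj; simp [bits] at hj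
  | cons k h ih =>
    intro j hj
    rw [wd_cons]
    by_cases hk : bits T h k = true
    · by_cases hjk : j = k
      · subst hjk
        rw [← mul_assoc, gen_idem]
      · have h1 : ¬ T j k ∧ bits T h j = false := by
          simp only [bits, st, hk, if_true, hjk, if_false] at hj
          by_cases h2 : T j k
          · simp [h2] at hj
          · simp only [h2, if_false] at hj
            exact ⟨h2, hj⟩
        have h3 := ih j h1.2
        by_cases h4 : T k j
        · conv_lhs => rw [← h3]
          rw [← mul_assoc, ← mul_assoc, gen_R (fun t => hjk t.symm) h4 h1.1, mul_assoc, h3]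
        · rw [← mul_assoc, gen_comm hjk h1.1 h4, mul_assoc, h3]
    · have hk' : bits T h k = false := by simpa using hk
      have h1 : bits T h j = false := by
        simp only [bits, st, hk'] at hj
        simpa using hj
      rw [ih k hk', ih j h1]

/-- products in which every letter is seen, and the coordinates they read -/
inductive FS (T : V → V → Prop) : HK T → Finset V → Prop
  | one : FS T 1 Finset.univ
  | mul (u : HK T) (S : Finset V) (k : V) : FS T u S → k ∈ S → FS T (u * gen T k) (ph T k S)

/-- a coordinate which is not read can be updated before -/
theorem unseen (hT : ∀ i j, T i j → ¬ T j i) {u : HK T} {S : Finset V} (hu : FS T u S) :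
    ∀ j, j ∉ S → u * gen T j = u := by
  induction hu with
  | one => intro j hj; exact absurd (Finset.mem_univ j) hj
  | mul u S k hu hk ih =>
    intro j hj
    simp only [ph, hk, if_true, Finset.mem_union, Out, Finset.mem_filter, Finset.mem_univ,
      true_and, Finset.mem_erase, not_or, not_and] at hj
    by_cases hjk : j = k
    · subst hjk
      rw [mul_assoc, gen_idem]
    · have h1 := ih j (hj.2 hjk)
      by_cases h2 : T j k
      · conv_lhs => rw [← h1]
        rw [mul_assoc, mul_assoc, ← mul_assoc (gen T j), gen_L hjk h2 hj.1, ← mul_assoc, h1]
      · rw [mul_assoc, gen_comm (fun t => hjk t.symm) hj.1 h2, ← mul_assoc, h1]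

theorem seen (hT : ∀ i j, T i j → ¬ T j i) (h : List V) : ∀ (u : HK T) (S : Finset V),
    FS T u S → u * wd T h = u * wd T (tau T h S) := by
  induction h with
  | nil => intro u S _; rfl
  | cons j h ih =>
    intro u S hu
    by_cases hj : bits T h j = true
    · by_cases hS : j ∈ S
      · simp only [tau, hj, if_true, hS]
        rw [wd_cons, wd_cons, ← mul_assoc, ← mul_assoc]
        exact ih _ _ (FS.mul u S j hu hS)
      · simp only [tau, hj, if_true, hS, if_false]
        rw [wd_cons, ← mul_assoc, unseen hT hu j hS]
        exact ih _ _ hu
    · have hj' : bits T h j = false := by simpa using hj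
      have h1 : tau T (j :: h) S = tau T h S := by
        simp [tau, hj']
      rw [h1, wd_cons, inactive hT h j hj']
      exact ih _ _ hu

theorem wd_tau (hT : ∀ i j, T i j → ¬ T j i) (h : List V) :
    wd T (tau T h Finset.univ) = wd T h := by
  have := seen hT h 1 Finset.univ FS.one
  rw [one_mul, one_mul] at this
  exact this.symm

end Pool.Agent.H68.HKO
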