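import Pool.Agent.H68.HKO.Defs

set_option autoImplicit false
set_option linter.dupNamespace false
set_option linter.unusedSectionVars false

/-!
# Tr: the projection lemma

Words with the same letter counts and the same projections to joined pairs give the same element.
Induction on `l = a :: m`: the first `a` of `l'` is preceded only by letters not joined to `a`,
move it to the front.
-/

namespace Pool.Agent.H68.HKO

open Pool.Agent.H3.HK
open scoped Classical

variable {V : Type} [Fintype V]

/-- a letter commutes with a word all of whose letters are different from it and not joined to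
it -/
theorem wd_comm (T : V → V → Prop) {a : V} {p : List V}
    (h : ∀ k ∈ p, k ≠ a ∧ ¬ T k a ∧ ¬ T a k) : wd T p * gen T a = gen T a * wd T p := by
  induction p with
  | nil => simp
  | cons k p ih =>
    obtain ⟨h1, h2, h3⟩ := h k (by simp)
    rw [wd_cons, mul_assoc, ih fun m hm => h m (by simp [hm]), ← mul_assoc, gen_comm h1 h2 h3,
      mul_assoc]

theorem wd_eq_of_proj (T : V → V → Prop) {l l' : List V} (h1 : ∀ i, l.count i = l'.count i)
    (h2 : ∀ i j, i ≠ j → T i j →
      l.filter (fun k => k = i ∨ k = j) = l'.filter (fun k => k = i ∨ k = j)) :
    wd T l = wd T l' := by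
  induction l generalizing l' with
  | nil =>
    have : l' = [] := by
      refine List.eq_nil_iff_forall_not_mem.2 fun a ha => ?_
      have h3 := h1 a
      rw [List.count_nil] at h3
      exact absurd (List.count_pos_iff.2 ha) (by omega)
    rw [this]
  | cons a m ih =>
    have ha : a ∈ l' := by
      rw [← List.count_pos_iff, ← h1 a, List.count_cons_self]
      omega
    obtain ⟨p, q, rfl, hp⟩ := List.eq_append_cons_of_mem ha
    -- no letter of `p` is joined to `a`
    have key : ∀ k ∈ p, ∀ i j, i ≠ j → T i j → (a = i ∨ a = j) → (k = i ∨ k = j) → False := by
      intro k hk i j hij hT hai hki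
      have h3 := h2 i j hij hT
      have hka : k ≠ a := fun e => hp (e ▸ hk)
      rw [List.filter_append, List.filter_cons_of_pos (by simpa using hai)] at h3
      have h4 : k ∈ p.filter (fun k => k = i ∨ k = j) := by
        rw [List.mem_filter]
        exact ⟨hk, by simpa using hki⟩
      cases h5 : p.filter (fun k => k = i ∨ k = j) with
      | nil => rw [h5] at h4; simp at h4
      | cons b r =>
        rw [h5, List.cons_append] at h3
        have h6 : a = b := (List.cons.inj h3).1
        have h7 : b ∈ p := by
          have : b ∈ p.filter (fun k => k = i ∨ k = j) := by rw [h5]; simp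
          exact (List.mem_filter.1 this).1
        exact hp (h6 ▸ h7)
    have hcomm : ∀ k ∈ p, k ≠ a ∧ ¬ T k a ∧ ¬ T a k := by
      intro k hk
      have hka : k ≠ a := fun e => hp (e ▸ hk)
      exact ⟨hka, fun t => key k hk k a hka t (Or.inr rfl) (Or.inl rfl),
        fun t => key k hk a k hka.symm t (Or.inl rfl) (Or.inr rfl)⟩
    rw [wd_append, wd_cons, wd_cons, ← mul_assoc, wd_comm T hcomm, mul_assoc, ← wd_append]
    congr 1
    refine ih (fun i => ?_) fun i j hij hT => ?_
    · have h3 := h1 i
      simp only [List.count_append, List.count_cons] at h3 ⊢
      omega
    · have h3 := h2 i j hij hT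
      by_cases hai : a = i ∨ a = j
      · have h4 : p.filter (fun k => k = i ∨ k = j) = [] := by
          rw [List.filter_eq_nil_iff]
          intro k hk hki
          exact key k hk i j hij hT hai (by simpa using hki)
        rw [List.filter_append, List.filter_cons_of_pos (by simpa using hai),
          List.filter_cons_of_pos (by simpa using hai), h4, List.nil_append] at h3
        rw [List.filter_append, h4, List.nil_append]
        exact (List.cons.inj h3).2
      · rw [List.filter_append, List.filter_cons_of_neg (by simpa using hai),
          List.filter_cons_of_neg (by simpa using hai)] at h3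
        rw [List.filter_append]
        exact h3

end Pool.Agent.H68.HKO
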