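import Pool.Agent.H68.HKO.Rel
import Pool.Agent.H68.HKO.Red
import Pool.Agent.H68.HKO.Fr
import Pool.Agent.H68.HKO.Tr

set_option autoImplicit false
set_option linter.dupNamespace false
set_option linter.unusedSectionVars false

/-!
# Hecke-Kiselman monoids of oriented graphs are linear over `ℤ`
-/

namespace Pool.Agent.H68.HKO

open Pool.Agent.H3.HK
open scoped Classical

variable {V : Type} [Fintype V] {T : V → V → Prop}

/-- the bits after a word, from any start -/
noncomputable def stw (T : V → V → Prop) : List V → (V → Bool) → (V → Bool)
  | [] => id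
  | k :: h => st T k ∘ stw T h

/-- the operators of a word -/
noncomputable def AA (T : V → V → Prop) : List V → (V → Bool) →
    Matrix (Finset V × (Fin 2 × (V × V))) (Finset V × (Fin 2 × (V × V))) ℤ
  | [] => fun _ => 1
  | k :: h => fun c => (if stw T h c k then LL T k else 1) * AA T h c

theorem rep_wd (hT : ∀ i j, T i j → ¬ T j i) (h : List V) :
    rep hT (wd T h) = bl (stw T h) (AA T h) := by
  induction h with
  | nil =>
    rw [wd_nil, map_one]
    exact bl_one.symm
  | cons k h ih =>
    rw [wd_cons, map_mul, ih, rep_gen, EE, bl_mul]
    rfl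

theorem stw_start (h : List V) : stw T h (fun _ => true) = bits T h := by
  induction h with
  | nil => rfl
  | cons k h ih =>
    change st T k (stw T h _) = st T k (bits T h)
    rw [ih]

/-- the coordinates read by a word -/
noncomputable def phw (T : V → V → Prop) : List V → Finset V → Finset V
  | [] => id
  | k :: h => fun S => if bits T h k then phw T h (ph T k S) else phw T h S

theorem AA_start (h : List V) : AA T h (fun _ => true) =
    cb (phw T h) (fun S => MW T (tau T h S)) := by
  induction h with
  | nil =>
    have : (fun S : Finset V => MW T (tau T [] S)) = fun _ => 1 := by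
      funext S
      exact MW_nil T
    rw [this]
    exact (cb_one (P := Finset V) (K := Fin 2 × (V × V))).symm
  | cons k h ih =>
    change (if stw T h (fun _ => true) k then LL T k else 1) * AA T h (fun _ => true) = _
    rw [ih, stw_start]
    by_cases hk : bits T h k = true
    · rw [if_pos hk, LL, cb_mul]
      congr 1
      · funext S
        simp [phw, hk]
      · funext S
        by_cases hS : k ∈ S
        · simp [tau, hk, hS, MW_cons]
        · simp [tau, hk, hS, ph_of_not hS]
    · rw [if_neg hk, one_mul]
      have hk' : bits T h k = false := by simpa using hk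
      congr 1
      · funext S
        simp [phw, hk']
      · funext S
        simp [tau, hk']

theorem rep_sum (hT : ∀ i j, T i j → ¬ T j i) (h : List V) (u v : Fin 2 × (V × V)) :
    ∑ c, ∑ S, rep hT (wd T h) (c, (Finset.univ, u)) ((fun _ => true), (S, v)) =
      MW T (tau T h Finset.univ) u v := by
  rw [rep_wd, Finset.sum_eq_single (bits T h)]
  · rw [Finset.sum_eq_single (phw T h Finset.univ)]
    · have e1 : bl (stw T h) (AA T h) (bits T h, (Finset.univ, u))
          ((fun _ => true), (phw T h Finset.univ, v)) =
          AA T h (fun _ => true) (Finset.univ, u) (phw T h Finset.univ, v) :=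
        if_pos (stw_start h).symm
      rw [e1, AA_start]
      exact if_pos rfl
    · intro S _ hS
      have e1 : bl (stw T h) (AA T h) (bits T h, (Finset.univ, u)) ((fun _ => true), (S, v)) =
          AA T h (fun _ => true) (Finset.univ, u) (S, v) := if_pos (stw_start h).symm
      rw [e1, AA_start]
      exact if_neg hS
    · intro hh; exact absurd (Finset.mem_univ _) hh
  · intro c _ hc
    refine Finset.sum_eq_zero fun S _ => ?_
    exact if_neg fun t => hc (t.trans (stw_start h))
  · intro hh; exact absurd (Finset.mem_univ _) hh

theorem rep_injective (hT : ∀ i j, T i j → ¬ T j i) : Function.Injective (rep hT) := by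
  intro x y e
  obtain ⟨h, rfl⟩ := exists_wd x
  obtain ⟨h', rfl⟩ := exists_wd y
  have e1 : MW T (tau T h Finset.univ) = MW T (tau T h' Finset.univ) := by
    ext u v
    rw [← rep_sum hT h u v, ← rep_sum hT h' u v, e]
  have e2 : ∀ p, Mp T (tau T h Finset.univ) p = Mp T (tau T h' Finset.univ) p :=
    congrFun (Matrix.blockDiagonal_injective e1)
  have e3 := Mp_inj T e2
  rw [← wd_tau hT h, ← wd_tau hT h']
  exact wd_eq_of_proj T e3.1 e3.2

/-- **Every Hecke-Kiselman monoid of an oriented graph is linear over the integers.** -/
theorem deg_le (hT : ∀ i j, T i j → ¬ T j i) :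
    deg ℤ T ≤ ((2 * Fintype.card V ^ 2 * 4 ^ Fintype.card V : ℕ) : ℕ∞) := by
  have hc : Fintype.card ((V → Bool) × (Finset V × (Fin 2 × (V × V)))) =
      2 * Fintype.card V ^ 2 * 4 ^ Fintype.card V := by
    have h4 : (4 : ℕ) ^ Fintype.card V = 2 ^ Fintype.card V * 2 ^ Fintype.card V := by
      rw [← mul_pow]
      norm_num
    simp only [Fintype.card_prod, Fintype.card_fin, Fintype.card_finset, Fintype.card_fun,
      Fintype.card_bool]
    rw [h4]
    ring
  let e := Fintype.equivFinOfCardEq hc
  refine sInf_le ⟨_, rfl, ⟨fun g => Matrix.reindex e e (rep hT g), fun g h => ?_⟩,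
    fun g h eq => ?_⟩
  · rw [map_mul]
    simp only [Matrix.reindex_apply]
    rw [Matrix.submatrix_mul_equiv]
  · exact rep_injective hT ((Matrix.reindex e e).injective eq)

end Pool.Agent.H68.HKO
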