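import Pool.Agent.H68.HKO.Defs

set_option autoImplicit false
set_option linter.dupNamespace false
set_option linter.unusedSectionVars false

/-!
# Rel: the representation
-/

namespace Pool.Agent.H68.HKO

open Pool.Agent.H3.HK
open scoped Classical

/-! ### block matrices -/

section blocks

variable {C J P K : Type} [Fintype C] [Fintype J] [Fintype P] [Fintype K]

/-- columns `c` are sent to `f c` -/
noncomputable def bl (f : C → C) (A : C → Matrix J J ℤ) : Matrix (C × J) (C × J) ℤ :=
  Matrix.of fun x y => if x.1 = f y.1 then A y.1 x.2 y.2 else 0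

/-- rows `S` are read from `φ S` -/
noncomputable def cb (φ : P → P) (B : P → Matrix K K ℤ) : Matrix (P × K) (P × K) ℤ :=
  Matrix.of fun x y => if y.1 = φ x.1 then B x.1 x.2 y.2 else 0

theorem bl_mul (f g : C → C) (A B : C → Matrix J J ℤ) :
    bl f A * bl g B = bl (f ∘ g) (fun c => A (g c) * B c) := by
  ext x y
  rw [Matrix.mul_apply, Fintype.sum_prod_type, Finset.sum_eq_single (g y.1)]
  · have e1 : ∀ m : J, bl g B (g y.1, m) y = B y.1 m y.2 := fun m => if_pos rfl
    simp only [e1]
    by_cases h : x.1 = f (g y.1)
    · have e2 : ∀ m : J, bl f A x (g y.1, m) = A (g y.1) x.2 m := fun m => if_pos h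
      simp only [e2]
      rw [← Matrix.mul_apply]
      exact (if_pos h).symm
    · have e2 : ∀ m : J, bl f A x (g y.1, m) = 0 := fun m => if_neg h
      simp only [e2, zero_mul, Finset.sum_const_zero]
      exact (if_neg h).symm
  · intro c _ hc
    refine Finset.sum_eq_zero fun m _ => ?_
    have : bl g B (c, m) y = 0 := if_neg hc
    rw [this, mul_zero]
  · intro h; exact absurd (Finset.mem_univ _) h

theorem cb_mul (φ ψ : P → P) (B D : P → Matrix K K ℤ) :
    cb φ B * cb ψ D = cb (ψ ∘ φ) (fun S => B S * D (φ S)) := by
  ext x y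
  rw [Matrix.mul_apply, Fintype.sum_prod_type, Finset.sum_eq_single (φ x.1)]
  · have e1 : ∀ m : K, cb φ B x (φ x.1, m) = B x.1 x.2 m := fun m => if_pos rfl
    simp only [e1]
    by_cases h : y.1 = ψ (φ x.1)
    · have e2 : ∀ m : K, cb ψ D (φ x.1, m) y = D (φ x.1) m y.2 := fun m => if_pos h
      simp only [e2]
      rw [← Matrix.mul_apply]
      exact (if_pos h).symm
    · have e2 : ∀ m : K, cb ψ D (φ x.1, m) y = 0 := fun m => if_neg h
      simp only [e2, mul_zero, Finset.sum_const_zero]
      exact (if_neg h).symm
  · intro c _ hc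
    refine Finset.sum_eq_zero fun m _ => ?_
    have : cb φ B x (c, m) = 0 := if_neg hc
    rw [this, zero_mul]
  · intro h; exact absurd (Finset.mem_univ _) h

theorem bl_one [DecidableEq C] [DecidableEq J] :
    bl (id : C → C) (fun _ => (1 : Matrix J J ℤ)) = 1 := by
  ext x y
  rw [bl, Matrix.of_apply, Matrix.one_apply, Matrix.one_apply]
  by_cases h : x.1 = y.1
  · by_cases h2 : x.2 = y.2
    · rw [if_pos (show x.1 = id y.1 from h), if_pos h2, if_pos (Prod.ext h h2)]
    · rw [if_pos (show x.1 = id y.1 from h), if_neg h2, if_neg fun t => h2 (by rw [t])]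
  · rw [if_neg (show ¬ x.1 = id y.1 from h), if_neg fun t => h (by rw [t])]

theorem cb_one [DecidableEq P] [DecidableEq K] :
    cb (id : P → P) (fun _ => (1 : Matrix K K ℤ)) = 1 := by
  ext x y
  rw [cb, Matrix.of_apply, Matrix.one_apply, Matrix.one_apply]
  by_cases h : x.1 = y.1
  · by_cases h2 : x.2 = y.2
    · rw [if_pos (show y.1 = id x.1 from h.symm), if_pos h2, if_pos (Prod.ext h h2)]
    · rw [if_pos (show y.1 = id x.1 from h.symm), if_neg h2, if_neg fun t => h2 (by rw [t])]
  · rw [if_neg (show ¬ y.1 = id x.1 from fun t => h t.symm), if_neg fun t => h (by rw [t])]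

end blocks

variable {V : Type} [Fintype V]

/-! ### bits -/

theorem st_of_false {T : V → V → Prop} {i : V} {c : V → Bool} (h : c i = false) :
    st T i c = c := by simp [st, h]

theorem st_self (T : V → V → Prop) (i : V) (c : V → Bool) : st T i c i = false := by
  by_cases h : c i = true
  · simp [st, h]
  · have h' : c i = false := by simpa using h
    rw [st_of_false h', h']

theorem st_true {T : V → V → Prop} {i : V} {c : V → Bool} (h : c i = true) (k : V) :
    st T i c k = if k = i then false else if T k i then true else c k := by simp [st, h]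

theorem st_not {T : V → V → Prop} {i k : V} (hk : k ≠ i) (h : ¬ T k i) (c : V → Bool) :
    st T i c k = c k := by
  by_cases hc : c i = true
  · simp [st, hc, hk, h]
  · have h' : c i = false := by simpa using hc
    rw [st_of_false h']

theorem st_arrow {T : V → V → Prop} {i k : V} (hk : k ≠ i) (h : T k i) {c : V → Bool}
    (hc : c i = true) : st T i c k = true := by
  simp [st, hc, hk, h]

theorem st_idem (T : V → V → Prop) (i : V) (c : V → Bool) : st T i (st T i c) = st T i c :=
  st_of_false (st_self T i c)

theorem st_comm {T : V → V → Prop} {i j : V} (hn : i ≠ j) (h1 : ¬ T i j) (h2 : ¬ T j i)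
    (c : V → Bool) : st T i (st T j c) = st T j (st T i c) := by
  by_cases hi : c i = true
  · by_cases hj : c j = true
    · have e1 : st T j c i = true := by rw [st_not hn h1, hi]
      have e2 : st T i c j = true := by rw [st_not hn.symm h2, hj]
      funext k
      simp only [st, hi, hj, if_true] at e1 e2 ⊢
      rw [if_pos e1, if_pos e2]
      by_cases k1 : k = i
      · subst k1
        simp [hn, h1]
      · by_cases k2 : k = j
        · subst k2
          simp [k1, h2]
        · simp only [k1, k2, if_false]
          by_cases k3 : T k i <;> by_cases k4 : T k j <;> simp [k3, k4]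
    · have hj' : c j = false := by simpa using hj
      have e : st T i c j = false := by rw [st_not hn.symm h2, hj']
      rw [st_of_false hj', st_of_false e]
  · have hi' : c i = false := by simpa using hi
    have e : st T j c i = false := by rw [st_not hn h1, hi']
    rw [st_of_false hi', st_of_false e]

theorem st_R {T : V → V → Prop} {i j : V} (hn : i ≠ j) (h2 : ¬ T j i) (c : V → Bool) :
    st T j (st T i (st T j c)) = st T i (st T j c) :=
  st_of_false (by rw [st_not hn.symm h2, st_self])

theorem st_L {T : V → V → Prop} {i j : V} (hn : i ≠ j) (h1 : T i j) (h2 : ¬ T j i)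
    (c : V → Bool) : st T i (st T j (st T i c)) = st T i (st T j c) := by
  by_cases hi : c i = true
  · by_cases hj : c j = true
    · have e1 : st T i c j = true := by rw [st_not hn.symm h2, hj]
      have e2 : st T j (st T i c) i = true := st_arrow hn h1 e1
      have e3 : st T j c i = true := st_arrow hn h1 hj
      funext k
      rw [st_true e2, st_true e3, st_true e1, st_true hj]
      by_cases k1 : k = i
      · simp [k1]
      · by_cases k3 : T k i
        · simp [k1, k3]
        · rw [st_not k1 k3]
    · have hj' : c j = false := by simpa using hj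
      have e : st T i c j = false := by rw [st_not hn.symm h2, hj']
      rw [st_of_false hj', st_of_false e, st_idem]
  · have hi' : c i = false := by simpa using hi
    rw [st_of_false hi']

/-! ### coordinate sets -/

theorem ph_of_not {T : V → V → Prop} {i : V} {S : Finset V} (h : i ∉ S) : ph T i S = S := by
  simp [ph, h]

theorem mem_ph {T : V → V → Prop} {i k : V} {S : Finset V} :
    k ∈ ph T i S ↔ (i ∈ S ∧ T i k) ∨ (k ∈ S ∧ (k ≠ i ∨ i ∉ S)) := by
  by_cases h : i ∈ S
  · simp only [ph, h, if_true, Finset.mem_union, Out, Finset.mem_filter, Finset.mem_univ,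
      true_and, Finset.mem_erase, not_true_eq_false, or_false]
    tauto
  · simp only [ph, h, if_false, false_and, false_or, not_false_eq_true, or_true, and_true]

theorem self_not_ph {T : V → V → Prop} {i : V} (h : ¬ T i i) (S : Finset V) : i ∉ ph T i S := by
  rw [mem_ph]
  tauto

theorem mem_ph_not {T : V → V → Prop} {i k : V} (hk : k ≠ i) (h : ¬ T i k) (S : Finset V) :
    k ∈ ph T i S ↔ k ∈ S := by
  rw [mem_ph]
  tauto

theorem ph_comm {T : V → V → Prop} {i j : V} (hn : i ≠ j) (h1 : ¬ T i j) (h2 : ¬ T j i)
    (S : Finset V) : ph T i (ph T j S) = ph T j (ph T i S) := by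
  ext k
  rw [mem_ph, mem_ph (i := j) (S := ph T i S), mem_ph_not hn h2, mem_ph_not hn.symm h1, mem_ph,
    mem_ph]
  by_cases k1 : k = i
  · subst k1
    tauto
  · by_cases k2 : k = j
    · subst k2
      tauto
    · tauto

/-! ### matrices of letters -/

/-- the block diagonal matrix of a letter -/
noncomputable def MD (T : V → V → Prop) (i : V) : Matrix (Fin 2 × (V × V)) (Fin 2 × (V × V)) ℤ :=
  Matrix.blockDiagonal (fun p => MM T i p)

/-- the block diagonal matrix of a word -/
noncomputable def MW (T : V → V → Prop) (l : List V) :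
    Matrix (Fin 2 × (V × V)) (Fin 2 × (V × V)) ℤ :=
  Matrix.blockDiagonal (fun p => Mp T l p)

theorem MW_nil (T : V → V → Prop) : MW T [] = 1 := by
  rw [MW]
  exact Matrix.blockDiagonal_one

theorem MW_cons (T : V → V → Prop) (k : V) (l : List V) : MW T (k :: l) = MD T k * MW T l := by
  rw [MW, MW, MD, ← Matrix.blockDiagonal_mul]
  rfl

theorem MD_comm {T : V → V → Prop} {i j : V} (hn : i ≠ j) (h1 : ¬ T i j) (h2 : ¬ T j i) :
    MD T i * MD T j = MD T j * MD T i := by
  rw [MD, MD, ← Matrix.blockDiagonal_mul, ← Matrix.blockDiagonal_mul]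
  congr 1
  funext p
  obtain ⟨a, b⟩ := p
  simp only [MM]
  by_cases ia : i = a
  · subst ia
    by_cases jb : j = b
    · subst jb
      simp [h1, hn.symm]
    · simp [jb, hn.symm]
  · by_cases ja : j = a
    · subst ja
      by_cases ib : i = b
      · subst ib
        simp [h2, hn]
      · simp [ib, hn]
    · by_cases ib : i = b
      · subst ib
        simp [ja, hn.symm]
      · simp [ia, ib]

/-- the operator of an active letter -/
noncomputable def LL (T : V → V → Prop) (i : V) :
    Matrix (Finset V × (Fin 2 × (V × V))) (Finset V × (Fin 2 × (V × V))) ℤ :=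
  cb (ph T i) (fun S => if i ∈ S then MD T i else 1)

theorem LL_comm {T : V → V → Prop} {i j : V} (hn : i ≠ j) (h1 : ¬ T i j) (h2 : ¬ T j i) :
    LL T i * LL T j = LL T j * LL T i := by
  rw [LL, LL, cb_mul, cb_mul]
  congr 1
  · funext S
    exact (ph_comm hn h1 h2 S).symm
  · funext S
    simp only [mem_ph_not hn h2, mem_ph_not hn.symm h1]
    by_cases hi : i ∈ S <;> by_cases hj : j ∈ S <;> simp [hi, hj, MD_comm hn h1 h2]

theorem LL_L {T : V → V → Prop} {i j : V} (hii : ¬ T i i) (hn : i ≠ j) (h2 : ¬ T j i) :
    LL T i * LL T j * LL T i = LL T i * LL T j := by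
  have key : ∀ S : Finset V, i ∉ ph T j (ph T i S) := fun S => by
    rw [mem_ph_not hn h2]
    exact self_not_ph hii S
  rw [LL, LL, cb_mul, cb_mul]
  congr 1
  · funext S
    simp only [Function.comp_apply]
    rw [ph_of_not (key S)]
  · funext S
    simp only [Function.comp_apply]
    rw [if_neg (key S), mul_one]

/-- the generator -/
noncomputable def EE (T : V → V → Prop) (i : V) :
    Matrix ((V → Bool) × (Finset V × (Fin 2 × (V × V))))
      ((V → Bool) × (Finset V × (Fin 2 × (V × V)))) ℤ :=
  bl (st T i) (fun c => if c i then LL T i else 1)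

theorem EE_idem (T : V → V → Prop) (i : V) : EE T i * EE T i = EE T i := by
  rw [EE, bl_mul]
  congr 1
  · funext c
    exact st_idem T i c
  · funext c
    simp [st_self]

theorem EE_comm {T : V → V → Prop} {i j : V} (hn : i ≠ j) (h1 : ¬ T i j) (h2 : ¬ T j i) :
    EE T i * EE T j = EE T j * EE T i := by
  rw [EE, EE, bl_mul, bl_mul]
  congr 1
  · funext c
    exact st_comm hn h1 h2 c
  · funext c
    rw [st_not hn h1, st_not hn.symm h2]
    by_cases hi : c i = true <;> by_cases hj : c j = true <;> simp [hi, hj, LL_comm hn h1 h2]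

theorem EE_R {T : V → V → Prop} {i j : V} (hn : i ≠ j) (h2 : ¬ T j i) :
    EE T j * EE T i * EE T j = EE T i * EE T j := by
  rw [EE, EE, bl_mul, bl_mul, bl_mul]
  congr 1
  · funext c
    exact st_R hn h2 c
  · funext c
    have e1 : st T i (st T j c) j = false := by rw [st_not hn.symm h2, st_self]
    rw [e1]
    simp

theorem EE_L {T : V → V → Prop} {i j : V} (hii : ¬ T i i) (hn : i ≠ j) (h1 : T i j)
    (h2 : ¬ T j i) : EE T i * EE T j * EE T i = EE T i * EE T j := by
  rw [EE, EE, bl_mul, bl_mul]
  congr 1
  · funext c
    exact st_L hn h1 h2 c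
  · funext c
    by_cases hi : c i = true
    · by_cases hj : c j = true
      · have e1 : st T i c j = true := by rw [st_not hn.symm h2, hj]
        have e2 : st T j (st T i c) i = true := st_arrow hn h1 e1
        have e3 : st T j c i = true := st_arrow hn h1 hj
        simp only [hi, hj, e1, e2, e3, if_true]
        exact LL_L hii hn h2
      · have hj' : c j = false := by simpa using hj
        have e1 : st T i c j = false := by rw [st_not hn.symm h2, hj']
        have e2 : st T j (st T i c) i = false := by rw [st_of_false e1, st_self]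
        have e3 : st T j c i = true := by rw [st_of_false hj', hi]
        simp [hi, hj', e1, e2, e3]
    · have hi' : c i = false := by simpa using hi
      rw [st_of_false hi']
      simp [hi']

/-- the representation -/
noncomputable def rep {T : V → V → Prop} (hT : ∀ i j, T i j → ¬ T j i) :
    HK T →* Matrix ((V → Bool) × (Finset V × (Fin 2 × (V × V))))
      ((V → Bool) × (Finset V × (Fin 2 × (V × V)))) ℤ :=
  PresentedMonoid.lift (rels := Rel T) (EE T) (by
    intro a b hab
    cases hab with
    | idem i =>
      simp only [map_mul, FreeMonoid.lift_eval_of]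
      exact EE_idem T i
    | comm i j hn h1 h2 =>
      simp only [map_mul, FreeMonoid.lift_eval_of]
      exact EE_comm hn h1 h2
    | braid i j hn h1 h2 => exact absurd h2 (hT i j h1)
    | arrowL i j hn h1 h2 =>
      simp only [map_mul, FreeMonoid.lift_eval_of]
      exact EE_L (fun h => hT i i h h) hn h1 h2
    | arrowR i j hn h1 h2 =>
      simp only [map_mul, FreeMonoid.lift_eval_of]
      exact EE_R hn h2)

theorem rep_gen {T : V → V → Prop} (hT : ∀ i j, T i j → ¬ T j i) (i : V) :
    rep hT (gen T i) = EE T i :=
  PresentedMonoid.lift_of _ _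

end Pool.Agent.H68.HKO
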